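import Pool.Agent.Helper22.NEAR.Defs

/-!
# T5a, block NEAR: exponents (NE10, NE11)
-/

set_option autoImplicit false

namespace Pool.Agent.Helper37.NEAR

open Finset Pool.Agent.Helper27.T4 Pool.Agent.Helper27.T5 Pool.Agent.Helper22.HW
  Pool.Agent.Helper22.SL Pool.Agent.Helper57.T5 Pool.Agent.Helper11.T5 Pool.Agent.Helper63.T5
  Pool.Agent.Helper39.T5 Pool.Agent.Helper22.NEAR
open Pool.Agent.Helper5.ET (Nj era)

/-- bound for the primes of the static levels -/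
noncomputable def spk (k : ℕ) : ℕ := sp (3 * (k + 5) + 3)

/-- bound for the decoding constants -/
noncomputable def CDk (k : ℕ) : ℕ := ((2 * spk k) ^ 3) ^ 3

theorem Cd_le {m k j t l' l : ℕ} (h : PD m k j (t + 1) l' l) :
    Pool.Agent.Helper39.SL.Cd (PN m k j t l' l) ≤ CDk k := by
  have h3 : hb m k j t l' l ≤ 3 := h.hh_le_three
  have ha := h.ak
  have hsp : 1 ≤ 2 * spk k := by
    have := Pool.Agent.Helper30.T5.sp_pos (3 * (k + 5) + 3)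
    unfold spk
    omega
  have h1 : ∀ r ∈ range (PN m k j t l' l).h,
      ∏ i, (2 * ((PN m k j t l' l).p r i - 1)) ≤ (2 * spk k) ^ 3 := by
    intro r hr
    rw [mem_range] at hr
    have hr' : r < hb m k j t l' l := hr
    calc ∏ i, (2 * ((PN m k j t l' l).p r i - 1)) ≤ ∏ _i : Fin 3, (2 * spk k) := by
          apply prod_le_prod'
          intro i _
          have h2 : (PN m k j t l' l).p r i = sp (3 * (t + r + 2) + i) := rfl
          have h4 : sp (3 * (t + r + 2) + i) ≤ spk k :=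
            Pool.Agent.Helper30.T5.sp_strictMono.monotone (by have := i.isLt; omega)
          rw [h2]
          omega
      _ = (2 * spk k) ^ 3 := by rw [prod_const, card_univ, Fintype.card_fin]
  unfold Pool.Agent.Helper39.SL.Cd CDk
  calc ∏ r ∈ range (PN m k j t l' l).h, ∏ i, (2 * ((PN m k j t l' l).p r i - 1)) ≤
        ∏ _r ∈ range (PN m k j t l' l).h, (2 * spk k) ^ 3 := prod_le_prod' h1
    _ = ((2 * spk k) ^ 3) ^ (hb m k j t l' l) := by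
        rw [prod_const, card_range]
        rfl
    _ ≤ ((2 * spk k) ^ 3) ^ 3 := Nat.pow_le_pow_right (Nat.pos_of_ne_zero (by positivity)) h3

theorem rt_le_l {m k j a l' l : ℕ} (h : PD m k j a l' l) :
    (rt m j : ℝ) ≤ (l : ℝ) ^ (1 / (m : ℝ)) := by
  have hm := h.km
  exact Pool.Agent.Helper30.T5.rt_le_rpow_l (by omega) (used_bb_zero h.u) h.el

/-- the largest exponent -/
def MM : ℕ := 2 ^ 12

/-- the common numerical estimate -/
theorem num_core {k j t l' l : ℕ} (h : PD (k + 2) k j (t + 1) l' l) {n B e : ℕ}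
    (hB : 1 ≤ B) (hn : n + 1 ≤ B * rt (k + 2) j ^ e) {CV : ℝ} (hCV : 0 ≤ CV) :
    ((2 * ((n + 1) ^ 2 ^ (4 * hb (k + 2) k j t l' l) *
        (Pool.Agent.Helper39.SL.Cd (PN (k + 2) k j t l' l) *
          (Pool.Agent.Helper83.T5.CL k * RV k l CV))) : ℕ) : ℝ) ≤
      (2 * ((B : ℝ) ^ MM * (CDk k * (Pool.Agent.Helper83.T5.CL k * CV)))) *
        (l : ℝ) ^ (((e * MM + 1 : ℕ) : ℝ) / ((k + 2 : ℕ) : ℝ)) := by
  have h3 : hb (k + 2) k j t l' l ≤ 3 := h.hh_le_three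
  have hexp : 2 ^ (4 * hb (k + 2) k j t l' l) ≤ MM :=
    Nat.pow_le_pow_right (by norm_num) (by omega)
  have hl0 : (0 : ℝ) ≤ (l : ℝ) := Nat.cast_nonneg _
  have hl1 : (0 : ℝ) < (l : ℝ) := by
    have h1 := used_bb_zero h.u
    have h2 := bb_ge_pow 0
    have h3 : 0 < l := by omega
    exact_mod_cast h3
  have hr0 : (0 : ℝ) ≤ (rt (k + 2) j : ℝ) := Nat.cast_nonneg _
  have hrt : (rt (k + 2) j : ℝ) ≤ (l : ℝ) ^ (1 / ((k + 2 : ℕ) : ℝ)) := rt_le_l h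
  -- the power
  have hBr : 1 ≤ B * rt (k + 2) j ^ e :=
    Nat.mul_pos hB (pow_pos (Pool.Agent.Helper27.T5.rt_pos _ _) _)
  have p1 : (n + 1) ^ 2 ^ (4 * hb (k + 2) k j t l' l) ≤ (B * rt (k + 2) j ^ e) ^ MM :=
    (Nat.pow_le_pow_left hn _).trans (Nat.pow_le_pow_right hBr hexp)
  have p2 : (((n + 1) ^ 2 ^ (4 * hb (k + 2) k j t l' l) : ℕ) : ℝ) ≤
      (B : ℝ) ^ MM * ((rt (k + 2) j : ℝ) ^ (e * MM)) := by
    have q : (((n + 1) ^ 2 ^ (4 * hb (k + 2) k j t l' l) : ℕ) : ℝ) ≤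
        (((B * rt (k + 2) j ^ e) ^ MM : ℕ) : ℝ) := Nat.cast_le.2 p1
    refine q.trans (le_of_eq ?_)
    rw [Nat.cast_pow, Nat.cast_mul, Nat.cast_pow, mul_pow, ← pow_mul]
  have p3 : (rt (k + 2) j : ℝ) ^ (e * MM) ≤
      (l : ℝ) ^ (((e * MM : ℕ) : ℝ) / ((k + 2 : ℕ) : ℝ)) := by
    refine (pow_le_pow_left₀ hr0 hrt _).trans (le_of_eq ?_)
    rw [← Real.rpow_natCast, ← Real.rpow_mul hl0]
    congr 1
    ring
  have hRV : (RV k l CV : ℝ) ≤ CV * (l : ℝ) ^ ((1 : ℝ) / ((k + 2 : ℕ) : ℝ)) := by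
    unfold RV
    exact Nat.floor_le (by positivity)
  have hCd : ((Pool.Agent.Helper39.SL.Cd (PN (k + 2) k j t l' l) : ℕ) : ℝ) ≤ (CDk k : ℝ) :=
    Nat.cast_le.2 (Cd_le h)
  have hsplit : (l : ℝ) ^ (((e * MM + 1 : ℕ) : ℝ) / ((k + 2 : ℕ) : ℝ)) =
      (l : ℝ) ^ (((e * MM : ℕ) : ℝ) / ((k + 2 : ℕ) : ℝ)) *
        (l : ℝ) ^ ((1 : ℝ) / ((k + 2 : ℕ) : ℝ)) := by
    rw [← Real.rpow_add hl1]
    congr 1
    push_cast
    ring
  rw [hsplit]
  generalize hX : (((n + 1) ^ 2 ^ (4 * hb (k + 2) k j t l' l) : ℕ)) = X at p2 ⊢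
  generalize hU : (l : ℝ) ^ (((e * MM : ℕ) : ℝ) / ((k + 2 : ℕ) : ℝ)) = U at p3 ⊢
  generalize hV : (l : ℝ) ^ ((1 : ℝ) / ((k + 2 : ℕ) : ℝ)) = V at hRV ⊢
  generalize hBB : (B : ℝ) ^ MM = BB at p2 ⊢
  have hBB0 : 0 ≤ BB := by rw [← hBB]; positivity
  have hU0 : 0 ≤ U := by rw [← hU]; positivity
  have hV0 : 0 ≤ V := by rw [← hV]; positivity
  have p4 : (X : ℝ) ≤ BB * U := p2.trans (mul_le_mul_of_nonneg_left p3 hBB0)
  push_cast
  have hCL : (0 : ℝ) ≤ (Pool.Agent.Helper83.T5.CL k : ℝ) := Nat.cast_nonneg _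
  have q1 : (Pool.Agent.Helper83.T5.CL k : ℝ) * (RV k l CV : ℝ) ≤
      Pool.Agent.Helper83.T5.CL k * (CV * V) := mul_le_mul_of_nonneg_left hRV hCL
  have q2 : (Pool.Agent.Helper39.SL.Cd (PN (k + 2) k j t l' l) : ℝ) *
      (Pool.Agent.Helper83.T5.CL k * RV k l CV) ≤
      CDk k * (Pool.Agent.Helper83.T5.CL k * (CV * V)) :=
    mul_le_mul hCd q1 (by positivity) (Nat.cast_nonneg _)
  have q3 : (X : ℝ) * ((Pool.Agent.Helper39.SL.Cd (PN (k + 2) k j t l' l) : ℝ) *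
      (Pool.Agent.Helper83.T5.CL k * RV k l CV)) ≤
      (BB * U) * (CDk k * (Pool.Agent.Helper83.T5.CL k * (CV * V))) :=
    mul_le_mul p4 q2 (mul_nonneg (Nat.cast_nonneg _) (mul_nonneg hCL (Nat.cast_nonneg _)))
      (mul_nonneg hBB0 hU0)
  calc 2 * ((X : ℝ) * ((Pool.Agent.Helper39.SL.Cd (PN (k + 2) k j t l' l) : ℝ) *
      (Pool.Agent.Helper83.T5.CL k * RV k l CV))) ≤
      2 * ((BB * U) * (CDk k * (Pool.Agent.Helper83.T5.CL k * (CV * V)))) := by linarith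
    _ = 2 * (BB * (CDk k * (Pool.Agent.Helper83.T5.CL k * CV))) * (U * V) := by ring

/-- the windows at distance `d` -/
theorem W_rt {m j i d : ℕ} (h : i + d ≤ m) : W m j i = rt m j ^ d * W m j (i + d) :=
  Pool.Agent.Helper30.T5.W_add h

/-- the innermost window -/
theorem W_last {k j : ℕ} : W (k + 2) j (k + 1) ≤ 2 ^ (k + 2) * rt (k + 2) j := by
  unfold W rt
  rw [← pow_add]
  apply Nat.pow_le_pow_right (by norm_num)
  have h1 := Nat.div_add_mod (la j) (k + 2)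
  have h2 := Nat.mod_lt (la j) (show 0 < k + 2 by omega)
  generalize la j / (k + 2) = q at *
  generalize la j % (k + 2) = r at *
  have h3 : (k + 2) * q = (k + 1) * q + q := by ring
  omega

/-- **NE10** -/
theorem num_reg : ∃ E : ℕ, ∀ k CV, 0 ≤ CV → ∃ (C1 : ℝ) (K0 : ℕ), 0 ≤ C1 ∧
    ∀ j t l' l, K0 ≤ l' → PD (k + 2) k j (t + 1) l' l → CaseReg k j t l' l → ∃ n : ℕ, 1 ≤ n ∧
      42 * (W (k + 2) j (t + 1) : ℝ) + 3 + W (k + 2) j (k + 1) + 90 * W (k + 2) j (t + 1) ≤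
        (n + 1 : ℕ) * dReg k j t l' l ∧
      ((2 * ((n + 1) ^ 2 ^ (4 * hb (k + 2) k j t l' l) *
        (Pool.Agent.Helper39.SL.Cd (PN (k + 2) k j t l' l) *
          (Pool.Agent.Helper83.T5.CL k * RV k l CV))) : ℕ) : ℝ) ≤
        C1 * (l : ℝ) ^ ((E : ℝ) / ((k + 2 : ℕ) : ℝ)) := by
  refine ⟨3 * MM + 1, fun k CV hCV => ⟨2 * (((27201 : ℕ) : ℝ) ^ MM *
    (CDk k * (Pool.Agent.Helper83.T5.CL k * CV))), 0, by positivity, ?_⟩⟩
  intro j t l' l _ h _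
  have h3 : hb (k + 2) k j t l' l ≤ 3 := h.hh_le_three
  have hle : t + 1 + hb (k + 2) k j t l' l ≤ k + 1 := hh_le h.ak
  have hrt := Pool.Agent.Helper27.T5.rt_pos (k + 2) j
  refine ⟨27200 * rt (k + 2) j ^ hb (k + 2) k j t l' l, ?_, ?_, ?_⟩
  · exact Nat.mul_pos (by norm_num) (pow_pos hrt _)
  · have hW := W_rt (m := k + 2) (j := j) (i := t + 1) (d := hb (k + 2) k j t l' l) (by omega)
    have hsb : sb (k + 2) k j t l' l + 1 = t + 1 + hb (k + 2) k j t l' l := by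
      unfold sb
      ring
    have hW1 : (1 : ℝ) ≤ (W (k + 2) j (t + 1) : ℝ) := by
      exact_mod_cast Pool.Agent.Helper27.T5.W_pos (k + 2) j (t + 1)
    have hW2 : (W (k + 2) j (k + 1) : ℝ) ≤ (W (k + 2) j (t + 1) : ℝ) := by
      exact_mod_cast W_anti (show t + 1 ≤ k + 1 by omega)
    have hW3 : (W (k + 2) j (t + 1) : ℝ) = (rt (k + 2) j : ℝ) ^ hb (k + 2) k j t l' l *
        (W (k + 2) j (t + 1 + hb (k + 2) k j t l' l) : ℝ) := by exact_mod_cast hW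
    have hWp : (0 : ℝ) ≤ (W (k + 2) j (t + 1 + hb (k + 2) k j t l' l) : ℝ) := Nat.cast_nonneg _
    unfold dReg
    rw [hsb]
    push_cast
    nlinarith
  · have hn : 27200 * rt (k + 2) j ^ hb (k + 2) k j t l' l + 1 ≤ 27201 * rt (k + 2) j ^ 3 := by
      have h1 : rt (k + 2) j ^ hb (k + 2) k j t l' l ≤ rt (k + 2) j ^ 3 :=
        Nat.pow_le_pow_right hrt h3
      have h2 : 1 ≤ rt (k + 2) j ^ 3 := pow_pos hrt _
      omega
    exact num_core h (by norm_num) hn hCV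

/-- **NE11** -/
theorem num_bot : ∃ E : ℕ, ∀ k c CV, 0 ≤ CV → ∃ (C1 : ℝ) (K0 : ℕ), 0 ≤ C1 ∧
    ∀ j t l' l, K0 ≤ l' → PD (k + 2) k j (t + 1) l' l → CaseBot c k j t l' l → ∃ n : ℕ, 1 ≤ n ∧
      42 * (W (k + 2) j (t + 1) : ℝ) + 3 + W (k + 2) j (k + 1) + 90 * W (k + 2) j (t + 1) ≤
        (n + 1 : ℕ) ∧
      ((2 * ((n + 1) ^ 2 ^ (4 * hb (k + 2) k j t l' l) *
        (Pool.Agent.Helper39.SL.Cd (PN (k + 2) k j t l' l) *
          (Pool.Agent.Helper83.T5.CL k * RV k l CV))) : ℕ) : ℝ) ≤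
        C1 * (l : ℝ) ^ ((E : ℝ) / ((k + 2 : ℕ) : ℝ)) := by
  refine ⟨4 * MM + 1, fun k c CV hCV => ⟨2 * (((137 * 2 ^ (k + 2) : ℕ) : ℝ) ^ MM *
    (CDk k * (Pool.Agent.Helper83.T5.CL k * CV))), 0, by positivity, ?_⟩⟩
  intro j t l' l _ h hc
  have h3 : hb (k + 2) k j t l' l ≤ 3 := h.hh_le_three
  have hsb : t + hb (k + 2) k j t l' l = k := hc.1
  have hrt := Pool.Agent.Helper27.T5.rt_pos (k + 2) j
  have hWp := Pool.Agent.Helper27.T5.W_pos (k + 2) j (t + 1)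
  refine ⟨136 * W (k + 2) j (t + 1), Nat.mul_pos (by norm_num) hWp, ?_, ?_⟩
  · have hW1 : (1 : ℝ) ≤ (W (k + 2) j (t + 1) : ℝ) := by exact_mod_cast hWp
    have hW2 : (W (k + 2) j (k + 1) : ℝ) ≤ (W (k + 2) j (t + 1) : ℝ) := by
      exact_mod_cast W_anti (show t + 1 ≤ k + 1 by omega)
    push_cast
    linarith
  · have hW := W_rt (m := k + 2) (j := j) (i := t + 1) (d := hb (k + 2) k j t l' l) (by omega)
    rw [show t + 1 + hb (k + 2) k j t l' l = k + 1 by omega] at hW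
    have h1 : rt (k + 2) j ^ hb (k + 2) k j t l' l ≤ rt (k + 2) j ^ 3 :=
      Nat.pow_le_pow_right hrt h3
    have h2 := Nat.mul_le_mul h1 (W_last (k := k) (j := j))
    rw [← hW] at h2
    have hn : 136 * W (k + 2) j (t + 1) + 1 ≤ 137 * 2 ^ (k + 2) * rt (k + 2) j ^ 4 := by
      calc 136 * W (k + 2) j (t + 1) + 1 ≤ 137 * W (k + 2) j (t + 1) := by omega
        _ ≤ 137 * (rt (k + 2) j ^ 3 * (2 ^ (k + 2) * rt (k + 2) j)) := Nat.mul_le_mul_left _ h2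
        _ = 137 * 2 ^ (k + 2) * rt (k + 2) j ^ 4 := by ring
    exact num_core h (Nat.mul_pos (by norm_num) (by positivity)) hn hCV

end Pool.Agent.Helper37.NEAR
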